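import Pool.Agent.H330.CountResult

/-!
# MP_65787c_al: `PSp_{2m}(q)` for all odd `m ≥ 5` and all odd `q`, `(m, q) ≠ (5, 3)`

`F` is a finite field of odd order `q`, `K` its extension of degree `2m`, `m ≥ 5` odd,
and `V = K` carries the alternating form `form F K m lam x y = Tr_{K/F}(lam x y^(q^m))`, where
`lam ≠ 0` is any element with `lam^(q^m) = -lam`.  So `G F K m lam = Sp(V)/scalars` is
`PSp_{2m}(q)`.  Multiplication by an element of `K` whose `(q^m+1)`-st power is `1` is an isometry:
these give the Singer cycles.  For a subfield `L` of `K` the subgroup `H L` is the normaliser in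
`G` of the algebra of multiplications by elements of `L`.  There is exactly one subfield `L` of
degree `t` over `F` for `t = 2` and for each prime `t ∣ m`.  If `t ∣ m` then the elements of `L`
are self-adjoint, and `H L` is the field extension subgroup `H_t` of type `Sp_{2m/t}(q^t)`; if
`t = 2` then `l ∈ L` has the adjoint `l^q`, and `H L` is the subgroup `K` of type `GU_m(q)`.

We prove that there is one `g ∈ G` with `A ∩ B^g = 1` for all members `A`, `B` of the family
consisting of `K` and all `H_t`.  By the theorem of Bereczky quoted in the problem, these are the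
maximal subgroups containing a Singer cycle, so `γ_u(PSp_{2m}(q)) = 2` for all odd `m ≥ 5` and all
odd `q`; the case `(m, q) = (5, 3)` left out here is the known one.

The proof counts.  The set of `g` with `K ∩ K^g = 1` is large, by an explicit family of double
cosets; the set of `g` such that some `H_t` meets `K^g`, or `K` meets `H_t^g`, or `H_t` meets
`H_{t'}^g` nontrivially is small, by counts of fixed points which do not use conjugacy classes.
-/

namespace Pool.Agent.Results.MP_65787c_al.AllOdd

open Module Pool.Agent.H330 Pool.Agent.H330.Short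

section Definitions

variable (F K : Type) [Field F] [Fintype F] [Field K] [Fintype K] [Algebra F K] (m : ℕ) (lam : K)

/-- The bilinear form `(x, y) ↦ Tr_{K/F}(lam * x * y^(q^m))` on the `F`-space `K`, `q = |F|`. -/
noncomputable def form (x y : K) : F := Algebra.trace F K (lam * x * y ^ (Fintype.card F ^ m))

/-- `g` preserves the form. -/
def IsIsom (g : LinAut F K) : Prop :=
  ∀ x y : K, form F K m lam (act g x) (act g y) = form F K m lam x y

theorem isom_mul {a b : LinAut F K} (ha : IsIsom F K m lam a) (hb : IsIsom F K m lam b) :
    IsIsom F K m lam (a * b) :=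
  (Symp.Sp F K m lam).mul_mem ha hb

theorem isom_one : IsIsom F K m lam 1 := (Symp.Sp F K m lam).one_mem

theorem isom_inv {a : LinAut F K} (ha : IsIsom F K m lam a) : IsIsom F K m lam a⁻¹ :=
  (Symp.Sp F K m lam).inv_mem ha

/-- The isometry group `Sp(V)`. -/
def Sp : Subgroup (LinAut F K) :=
  ⟨⟨⟨{g | IsIsom F K m lam g}, isom_mul F K m lam⟩, isom_one F K m lam⟩, isom_inv F K m lam⟩

/-- `G = PSp(V) = Sp(V)/scalars`. -/
def G : Type := P (Sp F K m lam)

/-- The group structure of `G`. -/
instance groupG : Group (G F K m lam) := projGroup (Sp F K m lam)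

/-- The image in `G` of an element of `Sp(V)`. -/
def toG (t : Sp F K m lam) : G F K m lam := proj (Sp F K m lam) t

/-- The algebra of the multiplications of `V = K` by the elements of the intermediate field
`L`. -/
def fieldAlg (L : IntermediateField F K) : Subalgebra F (Module.End F K) :=
  L.toSubalgebra.map (Algebra.lmul F K)

/-- The image in `G` of the normaliser in `Sp(V)` of the algebra of the multiplications by
elements of `L`. -/
def H (L : IntermediateField F K) : Subgroup (G F K m lam) := PNorm (Sp F K m lam) (fieldAlg F K L)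

/-- The set of the subgroups `H L`, where `L` is a subfield of `K` of prime degree over `F`:
the subgroups `H_t` (`L` of degree `t`, `t ∣ m` prime) and `K` (`L` of degree `2`) of the
problem. -/
def overgroups : Set (Subgroup (G F K m lam)) :=
  {A | ∃ L : IntermediateField F K, (finrank F L).Prime ∧ A = H F K m lam L}

/-- The form on `V = K` (of dimension `2m`) is alternating and nondegenerate. -/
def IsSymplectic : Prop :=
  (∀ x : K, form F K m lam x x = 0) ∧ ∀ x : K, (∀ y, form F K m lam x y = 0) → x = 0

/-- For `t = 2` and for every prime `t ∣ m` there is exactly one subfield `L` of degree `t`; there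
are no other subfields of prime degree; the elements of `L` are self-adjoint if the degree divides
`m`, and `l ∈ L` has the adjoint `l^q` if the degree is `2`. -/
def SubfieldTypes : Prop :=
  (∀ t : ℕ, t.Prime → (t = 2 ∨ t ∣ m) → ∃! L : IntermediateField F K, finrank F L = t) ∧
  ∀ L : IntermediateField F K, (finrank F L).Prime →
    (finrank F L ∣ m ∧ ∀ l ∈ L, ∀ x y : K, form F K m lam (l * x) y = form F K m lam x (l * y)) ∨
    (finrank F L = 2 ∧
      ∀ l ∈ L, ∀ x y : K, form F K m lam (l * x) y = form F K m lam x (l ^ Fintype.card F * y))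

/-- Every multiplication by `y`, where `y^(q^m+1) = 1`, lies in `Sp(V)`, and its image in `G` lies
in all members of `overgroups`. -/
def SingerInside : Prop :=
  ∀ y : K, y ^ (Fintype.card F ^ m + 1) = 1 → ∃ t : Sp F K m lam,
    (∀ x : K, act (t : LinAut F K) x = y * x) ∧ ∀ A ∈ overgroups F K m lam, toG F K m lam t ∈ A

end Definitions

/-- **Main result.**  Let `q = |F|` be odd, `m ≥ 5` odd, `(m, q) ≠ (5, 3)`, `[K : F] = 2m`,
`lam ∈ K` nonzero with `lam^(q^m) = -lam`.
(1) `V = K` with the form `Tr_{K/F}(lam x y^(q^m))` is a nondegenerate symplectic space, so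
`G F K m lam = PSp_{2m}(q)`.
(2) The set `overgroups` consists of `K` and one `H_t` for each prime `t ∣ m`.
(3) There is one `g ∈ G` with `A ∩ B^g = 1` for all `A, B ∈ {K} ∪ {H_t : t ∣ m prime}`.
(4) `b(G, G/H_t) = b(G, G/K) = 2` for all primes `t ∣ m`.
(5) All these subgroups contain the images of the multiplications by `y ∈ K`, `y^(q^m+1) = 1`
(for a generator `y` of the group of these elements, a Singer cycle of `G`).
(6) If `s ≠ 1` is an element of `G` each of whose maximal overgroups is `K` or one of the `H_t`,
then some pair `{s, s^g}` is a total dominating set of `G` and `γ_u(G) = 2`. -/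
theorem result (F K : Type) [Field F] [Fintype F] [Field K] [Fintype K] [Algebra F K] (m : ℕ)
    (lam : K) (hq : Odd (Fintype.card F)) (hmo : Odd m) (hm5 : 5 ≤ m)
    (hex : ¬ (m = 5 ∧ Fintype.card F = 3))
    (hm : finrank F K = 2 * m) (hl0 : lam ≠ 0) (hl : lam ^ (Fintype.card F ^ m) = -lam) :
    IsSymplectic F K m lam ∧ SubfieldTypes F K m lam ∧ TrivialMeet (overgroups F K m lam) ∧
    BaseTwo (overgroups F K m lam) ∧ SingerInside F K m lam ∧
    UniformPair (overgroups F K m lam) := by
  have hl' : Minus.bar F K m lam = -lam := by rw [Minus.bar_apply, hl]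
  obtain ⟨h1, h3, h4, h5, h6⟩ := Count.resultC hq hm hmo hm5 hex hl' hl0
  refine ⟨h1, ⟨?_, ?_⟩, h3, h4, h5, h6⟩
  · intro t ht hd
    obtain ⟨L, hL⟩ := Count.exists_subfield (F := F) (K := K) t (by
      rw [hm]
      rcases hd with rfl | hd
      · exact Dvd.intro _ rfl
      · exact Dvd.dvd.mul_left hd 2)
    exact ⟨L, hL, fun L' hL' => Count.subfield_unique L' L (hL'.trans hL.symm)⟩
  · intro L hL
    rcases hL.eq_two_or_odd' with h | h
    · right
      refine ⟨h, fun l hl x y => ?_⟩
      have hbar : Minus.bar F K m (l ^ Fintype.card F) = l := by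
        obtain ⟨a, ha⟩ := hmo
        have e : ∀ n : ℕ, l ^ (Fintype.card F ^ (2 * n)) = l := by
          intro n
          induction n with
          | zero => rw [mul_zero, pow_zero, pow_one]
          | succ n ih =>
            rw [mul_add, mul_one, pow_add, pow_mul, ih, ← h]
            exact Minus.pow_of_mem L l hl
        rw [Minus.bar_apply, ← pow_mul, ← pow_succ', ha]
        exact e (a + 1)
      change Symp.bil F K m lam (l * x) y = Symp.bil F K m lam x (l ^ Fintype.card F * y)
      rw [Symp.bil_apply, Symp.bil_apply, map_mul (Minus.bar F K m), hbar]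
      congr 1; ring
    · left
      have hd := Count.dvd_of_odd (m := m) hm (L := L) ⟨hL, h⟩
      exact ⟨hd, fun l hl x y => Symp.bil_D lam x y (Count.bar_of_mem hd hl)⟩

end Pool.Agent.Results.MP_65787c_al.AllOdd
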